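import Pool.Agent.H.MP_8a71fe_al.A
import Pool.Agent.H.MP_2a0133_al.A

set_option autoImplicit false

namespace Pool.Agent.Results.MP_d6b0b9_al.Yes

open Finset Pool.Agent.HShift Pool.Agent.Uni

variable {n : ℕ} {K : Type} [Field K] {Δ : Finset (Fin n) → Prop} {W W' G : Finset (Fin n)}
  {v : Fin n}

noncomputable def nu (Δ : Finset (Fin n) → Prop) (W : Finset (Fin n)) : ℕ :=
  sInf {m | ∃ G, Δ G ∧ G ⊆ W ∧ #G + m = #W}

lemma nu_le (h : Δ G) (h' : G ⊆ W) : #G ≤ #W ∧ #G + nu Δ W ≤ #W := by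
  have := card_le_card h'
  have : nu Δ W ≤ #W - #G := Nat.sInf_le ⟨G, h, h', by omega⟩
  omega

lemma ext (hΔ : Mat Δ) (h : Δ G) (h' : G ⊆ W) :
    ∃ H, Δ H ∧ G ⊆ H ∧ H ⊆ W ∧ #H + nu Δ W = #W := by
  have := card_le_card h'
  obtain ⟨H, h1, h2, h3⟩ : ∃ G, Δ G ∧ G ⊆ W ∧ #G + nu Δ W = #W :=
    Nat.sInf_mem (s := {m | ∃ G, Δ G ∧ G ⊆ W ∧ #G + m = #W}) ⟨#W - #G, G, h, h', by omega⟩
  have := (nu_le h h').2
  obtain ⟨H', h4, h5, h6, h7⟩ := hΔ.ext h1 (#H - #G) G h (by omega)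
  exact ⟨H', h4, h5, h6.trans (union_subset h' h2), h7 ▸ h3⟩

lemma nu_mono (hΔ : Mat Δ) (h0 : Δ ∅) (h : W' ⊆ W) : nu Δ W' ≤ nu Δ W := by
  obtain ⟨H, h1, -, h2, h3⟩ := ext hΔ h0 (empty_subset W)
  have := (nu_le (hΔ.down _ _ h1 inter_subset_left) (inter_subset_right (s₁ := H) (s₂ := W'))).2
  have := card_union_add_card_inter H W'
  have := card_le_card (union_subset h2 h)
  omega

lemma nu_step (hΔ : Mat Δ) (h0 : Δ ∅) (h : v ∈ W) : nu Δ W ≤ nu Δ (W.erase v) + 1 := by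
  obtain ⟨H, h1, -, h2, h3⟩ := ext hΔ h0 (empty_subset (W.erase v))
  have := (nu_le h1 (h2.trans (erase_subset _ _))).2
  have := card_erase_add_one h
  omega

lemma nu_zero (hΔ : Mat Δ) (h0 : Δ ∅) : nu Δ W = 0 ↔ Δ W := by
  refine ⟨fun h => ?_, fun h => by have := (nu_le h subset_rfl).2; omega⟩
  obtain ⟨H, h1, -, h2, h3⟩ := ext hΔ h0 (empty_subset W)
  rwa [← eq_of_subset_of_card_le h2 (by omega)]

lemma nu_col (hΔ : Mat Δ) (h0 : Δ ∅) (h : nu Δ W ≤ nu Δ (W.erase v)) (h' : W' ⊆ W) :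
    nu Δ W' ≤ nu Δ (W'.erase v) := by
  by_cases hv : v ∈ W'
  swap
  · rw [erase_eq_of_notMem hv]
  obtain ⟨G, h1, -, h2, h3⟩ := ext hΔ h0 (empty_subset (W'.erase v))
  obtain ⟨H, h4, h5, h6, h7⟩ := ext hΔ h1 (h2.trans (erase_subset_erase v h'))
  obtain ⟨J, h8, -, h9, h10⟩ := ext hΔ h0 (empty_subset W)
  have := card_erase_add_one hv
  have := card_erase_add_one (h' hv)
  obtain ⟨x, h11, h12, h13⟩ := hΔ.aug H J h4 h8 (by omega)
  obtain rfl : x = v := by
    by_contra h14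
    have := (nu_le h13 (insert_subset (mem_erase.2 ⟨h14, h9 h11⟩) h6)).2
    rw [card_insert_of_notMem h12] at this
    omega
  have := (nu_le (hΔ.down _ _ h13 (insert_subset_insert x h5))
    (insert_subset hv (h2.trans (erase_subset _ _)))).2
  rw [card_insert_of_notMem fun h => h12 (h5 h)] at this
  omega

def XX (Δ : Finset (Fin n) → Prop) (T W A F : Finset (Fin n)) : Prop :=
  F ⊆ A ∪ T ∧ (2 ≤ nu Δ (W \ (F \ T)) ∨ ¬ Δ (T \ F))

lemma XX_cone (hΔ : Mat Δ) (h0 : Δ ∅) {T A : Finset (Fin n)} {i : ℕ} (h1 : v ∈ A) (h2 : v ∉ T)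
    (h : nu Δ W ≤ nu Δ (W.erase v)) : Van K (XX Δ T W A) i :=
  van_cone v fun F _ h3 => ⟨insert_subset (mem_union_left _ h1) h3.1, h3.2.imp (fun h4 => by
    rw [insert_sdiff_of_notMem _ h2, sdiff_insert]
    exact h4.trans (nu_col hΔ h0 h sdiff_subset)) fun h4 => by rwa [sdiff_insert_of_notMem h2]⟩

lemma vanX (hΔ : Mat Δ) (h0 : Δ ∅) {T : Finset (Fin n)} {k : ℕ} (hb : ∀ m j, nu Δ T ≤ m →
    m < j + k → Van K (fun F => F ⊆ T ∧ (2 ≤ m ∨ ¬ Δ (T \ F))) j) (A : Finset (Fin n)) :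
    ∀ W i, A ⊆ W → Disjoint A T → T ⊆ W → nu Δ W < i + k → Van K (XX Δ T W A) i := by
  induction A using Finset.induction_on with
  | empty =>
    intro W i _ _ h1 h2
    convert hb _ i (nu_mono hΔ h0 h1) h2 using 2 with F
    rw [XX, empty_union]
    exact and_congr_right fun h => by rw [sdiff_eq_empty_iff_subset.2 h, sdiff_empty]
  | insert v A hv ih =>
    intro W i h1 h2 h3 h4
    rw [disjoint_insert_left] at h2
    rw [insert_subset_iff] at h1
    by_cases h : nu Δ W ≤ nu Δ (W.erase v)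
    · exact XX_cone hΔ h0 (mem_insert_self _ _) h2.1 h
    have e : ∀ F : Finset (Fin n), F ⊆ A ∪ T ↔ F ⊆ insert v A ∪ T ∧ v ∉ F := fun F => by
      rw [insert_union, ← subset_erase, erase_insert (by simp [hv, h2.1])]
    refine van_ld (fun F G h h' => ⟨h'.trans h.1, h.2.imp (fun h5 => h5.trans (nu_mono hΔ h0
      (sdiff_subset_sdiff subset_rfl (sdiff_subset_sdiff h' subset_rfl)))) fun h5 h6 =>
        h5 (hΔ.down _ _ h6 (sdiff_subset_sdiff subset_rfl h'))⟩) v ?_ fun j hj => ?_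
    · convert ih W i h1.2 h2.2 h3 h4 using 2 with F
      rw [XX, XX, e, and_right_comm]
    · convert ih (W.erase v) j (subset_erase.2 ⟨h1.2, hv⟩) h2.2 (subset_erase.2 ⟨h3, h2.1⟩)
        (by omega) using 2 with F
      rw [XX, XX, e, insert_sdiff_of_notMem _ h2.1, sdiff_insert_of_notMem h2.1, sdiff_insert,
        erase_sdiff_comm, and_right_comm, insert_subset_iff]
      simp

lemma sy (hΔ : Mat Δ) (x : Fin n →₀ ℕ) :
    x ∈ SY {F | ¬ Δ F} 2 ↔ 2 ≤ nu Δ x.support ∨ ¬ Δ {j | 2 ≤ x j} := by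
  refine ⟨fun h => by_contra fun h1 => ?_, fun h C hC => ?_⟩
  · push Not at h1
    obtain ⟨H, h2, h3, h4, h5⟩ := ext (W := x.support) hΔ h1.2 fun j hj => by
      simp only [mem_filter, Finsupp.mem_support_iff] at *
      omega
    have h6 : 2 ≤ ∑ v ∈ Hᶜ, x v := h Hᶜ fun F hF => by
      by_contra h6
      exact hF (hΔ.down _ _ h2 (by simpa [subset_iff] using h6))
    have h7 : ∑ v ∈ Hᶜ, x v ≤ ∑ v ∈ Hᶜ, if v ∈ x.support then 1 else 0 := sum_le_sum fun v hv => by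
      have := mt (@h3 v) (mem_compl.1 hv)
      simp only [mem_filter, Finsupp.mem_support_iff, mem_univ, true_and] at *
      split_ifs <;> omega
    rw [sum_ite_mem, sum_const, inter_comm, ← sdiff_eq_inter_compl, card_sdiff_of_subset h4] at h7
    simp only [smul_eq_mul, mul_one] at h7
    omega
  · have h1 : Δ Cᶜ := by_contra fun h1 => by simpa using hC _ h1
    rcases h with h | h
    · have := (nu_le (hΔ.down _ _ h1 fun j hj => mem_compl.2 (mem_sdiff.1 hj).2)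
        (sdiff_subset (s := x.support) (t := C))).2
      have := card_sdiff_add_card_inter x.support C
      refine le_trans ?_ (sum_le_sum_of_subset (f := x) (inter_subset_right (s₁ := x.support)))
      exact le_trans (by simp; omega) (card_nsmul_le_sum _ _ 1 fun v hv =>
        Nat.pos_of_ne_zero (Finsupp.mem_support_iff.1 (mem_inter.1 hv).1))
    · obtain ⟨v, h2, h3⟩ := hC _ h
      exact (mem_filter.1 h2).2.trans (single_le_sum (f := x) (fun _ _ => zero_le) h3)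

theorem result (K : Type) [Field K] (n : ℕ) (Δ : Finset (Fin n) → Prop) (hΔ : Mat Δ) (d : ℕ)
    (hd : ∀ C, ¬ Δ C → (∀ v ∈ C, Δ (C.erase v)) → #C = d) (B : Finset (Fin n))
    (hB : Maximal Δ B) (i : ℕ) (hi : i + 1 + #B = n) : ∃ e, ∀ a : Fin n →₀ ℕ,
      betti (⨅ P ∈ (FI K {F | ¬ Δ F}).minimalPrimes, P ^ 2) i a ≠ 0 → a.degree = e := by
  have h0 : Δ ∅ := hΔ.down _ _ hB.1 (empty_subset _)
  have h1 : nu Δ univ = i + 1 := by
    obtain ⟨H, h1, h2, -, h3⟩ := ext hΔ hB.1 (subset_univ _)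
    rw [← hB.eq_of_le h1 h2, card_univ, Fintype.card_fin] at h3
    omega
  refine ⟨#{v | nu Δ (univ.erase v) ≤ i} + d, fun a h => ?_⟩
  rw [symb] at h
  replace h := mt (betti_zero (K := K)).2 h
  let T : Finset (Fin n) := {j | 2 ≤ a j}
  have e : ∀ F, Dl (SY {F | ¬ Δ F} 2) a F ↔ ee F ≤ a ∧ a - ee F ∈ SY {F | ¬ Δ F} 2 := fun F =>
    ⟨fun h => ⟨h.le, by
      obtain ⟨x, h1, h2⟩ := h
      convert SY_up _ _ x h1 (a - ee F - x) using 1
      exact (add_tsub_cancel_of_le (le_tsub_of_add_le_right fun j => by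
        simpa [ee_apply] using h2 j)).symm⟩,
      fun h => ⟨_, h.2, fun j => by simpa [← ee_apply] using (tsub_add_cancel_of_le (h.1 j)).le⟩⟩
  have h2 : ∀ j, a j ≤ 2 := fun j => not_lt.1 fun h2 => h (van_cone j fun F hF h3 => by
    rw [e, sy hΔ] at h3 ⊢
    refine ⟨fun l => ?_, ?_⟩
    · have := h3.1 l
      simp only [ee_apply, mem_insert] at *
      grind
    · convert h3.2 using 3 <;> ext l <;> simp [ee_apply] <;> grind)
  have e1 : Dl (SY {F | ¬ Δ F} 2) a = XX Δ T a.support (a.support \ T) := funext fun F => by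
    rw [e, sy hΔ, XX]
    congr 1
    · refine propext (forall_congr' fun j => ?_)
      simp only [ee_apply, T, mem_union, mem_sdiff, mem_filter, Finsupp.mem_support_iff]
      grind
    · congr 3 <;> ext l <;> have := h2 l <;> simp [ee_apply, T] <;> grind
  rw [e1] at h
  have h3 : T ⊆ a.support := fun j hj => by
    simp only [T, mem_filter, Finsupp.mem_support_iff] at *
    omega
  have h4 := nu_mono hΔ h0 (subset_univ a.support)
  have h5 : ∀ v ∈ T, nu Δ (T.erase v) < nu Δ T := fun v hv => not_le.1 fun h5 =>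
    h (van_cone v fun F _ h6 => ⟨insert_subset (mem_union_right _ hv) h6.1, h6.2.imp
      (fun h7 => by rwa [insert_sdiff_of_mem _ hv]) fun h7 h8 => h7 (by
        have := nu_col hΔ h0 h5 (sdiff_subset (t := F))
        rw [← sdiff_insert, (nu_zero hΔ h0).2 h8] at this
        exact (nu_zero hΔ h0).1 (by omega))⟩)
  obtain ⟨v, hv⟩ : T.Nonempty := nonempty_iff_ne_empty.2 fun h6 =>
    h (vanX hΔ h0 (k := 2) (fun m j _ h7 => van_small fun F hF => by
      rw [h6, subset_empty] at hF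
      have := hF.2.resolve_right (by simpa)
      rw [hF.1, card_empty]
      omega) _ _ _ sdiff_subset sdiff_disjoint h3 (by omega))
  have h6 : nu Δ T = 1 := le_antisymm (not_lt.1 fun h6 => h (van_cone v fun F _ h7 =>
    ⟨insert_subset (mem_union_right _ hv) h7.1, .inl (le_trans h6 (nu_mono hΔ h0
      (subset_sdiff.2 ⟨h3, disjoint_sdiff⟩)))⟩)) (by have := h5 v hv; omega)
  have h7 : ∀ v ∈ T, Δ (T.erase v) := fun v hv => (nu_zero hΔ h0).1 (by have := h5 v hv; omega)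
  have h8 : nu Δ a.support = i + 1 := le_antisymm (h1 ▸ h4) (not_lt.1 fun h8 =>
    h (vanX hΔ h0 (k := 1) (fun m j _ _ => by
      by_cases h9 : 2 ≤ m
      · exact van_cone v fun F _ h => ⟨insert_subset hv h.1, .inl h9⟩
      · refine van_small fun F hF h10 => hF.2.resolve_left h9 ?_
        obtain ⟨u, hu⟩ := card_pos.1 (show 0 < #F by omega)
        exact hΔ.down _ _ (h7 u (hF.1 hu)) (subset_erase.2 ⟨sdiff_subset, by simp [hu]⟩))
      _ _ _ sdiff_subset sdiff_disjoint h3 h8))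
  have h9 : a.support = ({v | nu Δ (univ.erase v) ≤ i} : Finset _) := by
    ext u
    simp only [mem_filter, mem_univ, true_and]
    refine ⟨fun hu => not_lt.1 fun h9 => ?_, fun h9 => by_contra fun hu => ?_⟩
    · by_cases h10 : u ∈ T
      · exact (h5 u h10).not_ge (nu_col hΔ h0 (h1 ▸ h9) (subset_univ _))
      · exact h (XX_cone hΔ h0 (mem_sdiff.2 ⟨hu, h10⟩) h10 (nu_col hΔ h0 (h1 ▸ h9) (subset_univ _)))
    · have := nu_mono hΔ h0 (subset_erase.2 ⟨subset_univ _, hu⟩)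
      omega
  rw [← h9, ← hd T (fun h => by have := (nu_zero hΔ h0).2 h; omega) h7, Finsupp.degree_eq_sum,
    card_eq_sum_ite (subset_univ _), card_eq_sum_ite (subset_univ T), ← sum_add_distrib]
  refine sum_congr rfl fun j _ => ?_
  have := h2 j
  simp only [T, mem_filter, Finsupp.mem_support_iff]
  grind

end Pool.Agent.Results.MP_d6b0b9_al.Yes
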